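import Pool.Agent.R128.Retractions

set_option autoImplicit false

namespace Pool.Agent.Results.MP_31821e_co.BoundedChain

open Pool.Agent.R128.Retractions

/-- The chain `0 < 1 < 2 < … < 2' < 1' < 0'`. -/
abbrev C : Type := ℕ ⊕ₗ ℕᵒᵈ

/-- The element `k'` of the upper half. -/
def hi (k : ℕ) : C := Sum.inrₗ (OrderDual.toDual k)

/-- Round up to the next even (`e = 0`) or odd (`e = 1`) number in the lower half. -/
def rnd (e n : ℕ) : ℕ := 2 * ((n + 1 - e) / 2) + e

theorem rnd_mono (e : ℕ) : Monotone (rnd e) := by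
  intro a b h
  unfold rnd
  omega

theorem rnd_rnd {e : ℕ} (he : e ≤ 1) (n : ℕ) : rnd e (rnd e n) = rnd e n := by
  unfold rnd
  omega

/-- The map that is `rnd e` on the lower half and the identity on the upper half. -/
def f (e : ℕ) (x : C) : C :=
  match ofLex x with
  | Sum.inl n => Sum.inlₗ (rnd e n)
  | Sum.inr k => Sum.inrₗ k

theorem f_inl (e n : ℕ) : f e (Sum.inlₗ n) = Sum.inlₗ (rnd e n) := rfl

theorem f_inr (e : ℕ) (k : ℕᵒᵈ) : f e (Sum.inrₗ k) = Sum.inrₗ k := rfl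

theorem cases' (x : C) : (∃ n, x = Sum.inlₗ n) ∨ ∃ k, x = Sum.inrₗ k := by
  rcases h : ofLex x with n | k
  · exact Or.inl ⟨n, by rw [← toLex_ofLex x, h]⟩
  · exact Or.inr ⟨k, by rw [← toLex_ofLex x, h]⟩

theorem f_mono (e : ℕ) : Monotone (f e) := by
  intro x y h
  rcases cases' x with ⟨n, rfl⟩ | ⟨k, rfl⟩
  · rcases cases' y with ⟨m, rfl⟩ | ⟨l, rfl⟩
    · rw [f_inl, f_inl]
      exact Sum.Lex.inl_mono (rnd_mono e (Sum.Lex.inl_le_inl_iff.1 h))
    · rw [f_inl, f_inr]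
      exact (Sum.Lex.inl_lt_inr _ _).le
  · rcases cases' y with ⟨m, rfl⟩ | ⟨l, rfl⟩
    · exact absurd h (Sum.Lex.inl_lt_inr _ _).not_ge
    · rw [f_inr, f_inr]
      exact h

/-- The two retractions. -/
def r (e : ℕ) (he : e ≤ 1) : Retr C := ⟨f e, f_mono e, by
  intro x
  rcases cases' x with ⟨n, rfl⟩ | ⟨k, rfl⟩
  · rw [f_inl, f_inl, rnd_rnd he]
  · rfl⟩

/-- The retraction `x ↦ max x k'`. -/
def t (k : ℕ) : Retr C := ⟨fun x => x ⊔ hi k, fun _ _ h => sup_le_sup_right h _, by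
  intro x
  simp only [sup_assoc, sup_idem]⟩

theorem r_le_t (e : ℕ) (he : e ≤ 1) (k : ℕ) : r e he ≤ t k := by
  intro x
  show f e x ≤ x ⊔ hi k
  rcases cases' x with ⟨n, rfl⟩ | ⟨l, rfl⟩
  · rw [f_inl]
    exact (Sum.Lex.inl_lt_inr _ _).le.trans le_sup_right
  · rw [f_inr]
    exact le_sup_left

/-- There is a lattice, which is even a chain with a least and a greatest element, with two
retractions that have no least upper bound among the retractions. -/
theorem result : ∃ (L : Type) (_ : Lattice L) (_ : BoundedOrder L),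
    (∀ x y : L, x ≤ y ∨ y ≤ x) ∧ ∃ r s : Retr L, ¬ ∃ t : Retr L, IsLUB {r, s} t := by
  refine ⟨C, inferInstance, inferInstance, le_total, r 0 (by norm_num), r 1 (by norm_num), ?_⟩
  rintro ⟨u, hub, hleast⟩
  have h0 : r 0 (by norm_num) ≤ u := hub (Set.mem_insert _ _)
  have h1 : r 1 (by norm_num) ≤ u := hub (Set.mem_insert_of_mem _ rfl)
  -- the values of `u` are in the upper half
  rcases cases' (u.1 (Sum.inlₗ 0)) with ⟨m, hm⟩ | ⟨k, hk⟩
  · have hfix := u.2.2 (Sum.inlₗ 0)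
    rw [hm] at hfix
    have e0 : f 0 (Sum.inlₗ m) ≤ Sum.inlₗ m := (h0 _).trans hfix.le
    have e1 : f 1 (Sum.inlₗ m) ≤ Sum.inlₗ m := (h1 _).trans hfix.le
    rw [f_inl] at e0 e1
    have e0' := Sum.Lex.inl_le_inl_iff.1 e0
    have e1' := Sum.Lex.inl_le_inl_iff.1 e1
    unfold rnd at e0' e1'
    omega
  · have hle : u ≤ t (OrderDual.ofDual k + 1) := by
      apply hleast
      intro v hv
      rcases hv with rfl | hv
      · exact r_le_t _ _ _
      · rw [Set.mem_singleton_iff] at hv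
        subst hv
        exact r_le_t _ _ _
    have h2 := hle (Sum.inlₗ 0)
    rw [hk] at h2
    have h3 : (Sum.inlₗ 0 : C) ⊔ hi (OrderDual.ofDual k + 1) = hi (OrderDual.ofDual k + 1) :=
      sup_eq_right.2 (Sum.Lex.inl_lt_inr _ _).le
    have h4 : (Sum.inrₗ k : C) ≤ hi (OrderDual.ofDual k + 1) := h3 ▸ h2
    have h5 : k ≤ OrderDual.toDual (OrderDual.ofDual k + 1) := Sum.Lex.inr_le_inr_iff.1 h4
    have h6 : OrderDual.ofDual k + 1 ≤ OrderDual.ofDual k := h5
    omega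

end Pool.Agent.Results.MP_31821e_co.BoundedChain
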