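import Pool.Agent.R128.Retractions

set_option autoImplicit false

namespace Pool.Agent.Results.MP_31821e_co.CompleteLattice

open Pool.Agent.R128.Retractions

universe u

variable {L : Type u} [CompleteLattice L]

/-- The pointwise supremum of a set of retractions. -/
def sup (S : Set (Retr L)) (x : L) : L := ⨆ r ∈ S, r.1 x

theorem le_sup {S : Set (Retr L)} {r : Retr L} (hr : r ∈ S) (x : L) : r.1 x ≤ sup S x :=
  le_iSup₂ (f := fun (r : Retr L) (_ : r ∈ S) => r.1 x) r hr

theorem sup_mono (S : Set (Retr L)) : Monotone (sup S) := fun _ _ h =>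
  iSup₂_mono fun r _ => r.2.1 h

theorem sup_le_sup_sup (S : Set (Retr L)) (x : L) : sup S x ≤ sup S (sup S x) := by
  refine iSup₂_le fun r hr => ?_
  rw [← r.2.2 x]
  exact (r.2.1 (le_sup hr x)).trans (le_sup hr _)

/-- The post-fixed points of the supremum that are above its value at `x`. -/
def post (S : Set (Retr L)) (x : L) : Set L := {y | sup S x ≤ y ∧ sup S y ≤ y}

theorem sInf_mem_post (S : Set (Retr L)) (x : L) : sInf (post S x) ∈ post S x :=
  ⟨le_sInf fun _ hy => hy.1, le_sInf fun _ hy => (sup_mono S (sInf_le hy)).trans hy.2⟩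

/-- The least upper bound of a set of retractions. -/
def lub (S : Set (Retr L)) : Retr L where
  val x := sInf (post S x)
  property := by
    refine ⟨fun x x' h => sInf_le_sInf fun y hy => ⟨(sup_mono S h).trans hy.1, hy.2⟩, fun x => ?_⟩
    have h0 := sInf_mem_post S x
    have h1 := sInf_mem_post S (sInf (post S x))
    apply le_antisymm
    · exact sInf_le ⟨h0.2, h0.2⟩
    · refine sInf_le ⟨?_, h1.2⟩
      exact (sup_le_sup_sup S x).trans ((sup_mono S h0.1).trans h1.1)

theorem isLUB_lub (S : Set (Retr L)) : IsLUB S (lub S) := by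
  constructor
  · intro r hr x
    exact (le_sup hr x).trans (sInf_mem_post S x).1
  · intro u hu x
    have hsup : ∀ z, sup S z ≤ u.1 z := fun z => iSup₂_le fun r hr => hu hr z
    refine sInf_le ⟨hsup x, ?_⟩
    exact (hsup _).trans (u.2.2 x).le

/-- For every complete lattice `L` the poset of retractions of `L` is a complete lattice: every set
of retractions has a least upper bound and a greatest lower bound in it. -/
theorem result (L : Type u) [CompleteLattice L] (S : Set (Retr L)) :
    (∃ t, IsLUB S t) ∧ ∃ t, IsGLB S t :=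
  ⟨⟨_, isLUB_lub S⟩, ⟨_, isLUB_lowerBounds.1 (isLUB_lub (lowerBounds S))⟩⟩

end Pool.Agent.Results.MP_31821e_co.CompleteLattice
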